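import Pool.Agent.MP_99eff6_co.Defs

-- part MP_99eff6_co.Basic
section

namespace Pool.Agent.MP_99eff6_co

open Finset

variable {n : ℕ}

/-- Explicit form of containing an induced diamond. -/
def Dia (F : Finset (Finset (Fin n))) : Prop :=
  ∃ A B C D, A ∈ F ∧ B ∈ F ∧ C ∈ F ∧ D ∈ F ∧ A ⊆ B ∧ A ⊆ C ∧ B ⊆ D ∧ C ⊆ D ∧
    ¬ B ⊆ C ∧ ¬ C ⊆ B

theorem dia_iff (F : Finset (Finset (Fin n))) :
    ContainsInducedCopy (Bool × Bool) F ↔ Dia F := by
  constructor
  · rintro ⟨f, -, hf, hle⟩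
    refine ⟨f (false, false), f (true, false), f (false, true), f (true, true),
      hf _, hf _, hf _, hf _, ?_, ?_, ?_, ?_, ?_, ?_⟩
    · exact (hle _ _).1 (by decide)
    · exact (hle _ _).1 (by decide)
    · exact (hle _ _).1 (by decide)
    · exact (hle _ _).1 (by decide)
    · intro h; exact absurd ((hle _ _).2 h) (by decide)
    · intro h; exact absurd ((hle _ _).2 h) (by decide)
  · rintro ⟨A, B, C, D, hA, hB, hC, hD, hAB, hAC, hBD, hCD, hBC, hCB⟩
    have hAD : A ⊆ D := hAB.trans hBD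
    have hBA : ¬ B ⊆ A := fun h => hBC (h.trans hAC)
    have hCA : ¬ C ⊆ A := fun h => hCB (h.trans hAB)
    have hDB : ¬ D ⊆ B := fun h => hCB (hCD.trans h)
    have hDC : ¬ D ⊆ C := fun h => hBC (hBD.trans h)
    have hDA : ¬ D ⊆ A := fun h => hDB (h.trans hAB)
    let f : Bool × Bool → Finset (Fin n) := fun p =>
      match p with
      | (false, false) => A
      | (true, false) => B
      | (false, true) => C
      | (true, true) => D
    have hle : ∀ p q : Bool × Bool, p ≤ q ↔ f p ⊆ f q := by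
      rintro ⟨a, b⟩ ⟨c, d⟩
      cases a <;> cases b <;> cases c <;> cases d <;>
        simp [f, hAB, hAC, hBD, hCD, hBC, hCB, hAD, hBA, hCA, hDB, hDC, hDA, Prod.le_def]
    refine ⟨f, ?_, ?_, hle⟩
    · intro p q hpq
      exact le_antisymm ((hle p q).2 (by rw [hpq])) ((hle q p).2 (by rw [hpq]))
    · rintro ⟨a, b⟩
      cases a <;> cases b <;> simp [f, hA, hB, hC, hD]

/-- `S` can serve as the bottom of a diamond whose other members lie in `F`. -/
def IsBot' (F : Finset (Finset (Fin n))) (S : Finset (Fin n)) : Prop :=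
  ∃ B C D, B ∈ F ∧ C ∈ F ∧ D ∈ F ∧ S ⊆ B ∧ S ⊆ C ∧ B ⊆ D ∧ C ⊆ D ∧ ¬ B ⊆ C ∧ ¬ C ⊆ B

/-- `S` can serve as the top of a diamond whose other members lie in `F`. -/
def IsTop' (F : Finset (Finset (Fin n))) (S : Finset (Fin n)) : Prop :=
  ∃ A B C, A ∈ F ∧ B ∈ F ∧ C ∈ F ∧ A ⊆ B ∧ A ⊆ C ∧ B ⊆ S ∧ C ⊆ S ∧ ¬ B ⊆ C ∧ ¬ C ⊆ B

/-- `S` can serve as a middle element of a diamond whose other members lie in `F`. -/
def IsMid (F : Finset (Finset (Fin n))) (S : Finset (Fin n)) : Prop :=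
  ∃ A C D, A ∈ F ∧ C ∈ F ∧ D ∈ F ∧ A ⊆ S ∧ A ⊆ C ∧ S ⊆ D ∧ C ⊆ D ∧ ¬ S ⊆ C ∧ ¬ C ⊆ S

/-- Working form of saturation. -/
structure Sat (F : Finset (Finset (Fin n))) : Prop where
  free : ¬ Dia F
  sat : ∀ S, S ∉ F → IsBot' F S ∨ IsTop' F S ∨ IsMid F S

theorem sat_of (F : Finset (Finset (Fin n))) (h : DiamondSaturated F) : Sat F := by
  obtain ⟨h1, h2⟩ := h
  rw [dia_iff] at h1
  refine ⟨h1, fun S hS => ?_⟩
  obtain ⟨A, B, C, D, hA, hB, hC, hD, hAB, hAC, hBD, hCD, hBC, hCB⟩ := (dia_iff _).1 (h2 S hS)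
  rw [mem_insert] at hA hB hC hD
  rcases hA with rfl | hA
  · left
    rcases hB with rfl | hB
    · exact absurd hAC hBC
    rcases hC with rfl | hC
    · exact absurd hAB hCB
    rcases hD with rfl | hD
    · exact absurd (hBD.trans hAC) hBC
    exact ⟨B, C, D, hB, hC, hD, hAB, hAC, hBD, hCD, hBC, hCB⟩
  rcases hD with rfl | hD
  · right; left
    rcases hB with rfl | hB
    · exact absurd hCD hCB
    rcases hC with rfl | hC
    · exact absurd hBD hBC
    exact ⟨A, B, C, hA, hB, hC, hAB, hAC, hBD, hCD, hBC, hCB⟩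
  rcases hB with rfl | hB
  · right; right
    rcases hC with rfl | hC
    · exact absurd (Subset.refl _) hBC
    exact ⟨A, C, D, hA, hC, hD, hAB, hAC, hBD, hCD, hBC, hCB⟩
  rcases hC with rfl | hC
  · right; right
    exact ⟨A, B, D, hA, hB, hD, hAC, hAB, hCD, hBD, hCB, hBC⟩
  exact absurd ⟨A, B, C, D, hA, hB, hC, hD, hAB, hAC, hBD, hCD, hBC, hCB⟩ h1

/-- `a` is a minimal member of `F`. -/
def MinMem (F : Finset (Finset (Fin n))) (a : Finset (Fin n)) : Prop :=
  a ∈ F ∧ ∀ X ∈ F, X ⊆ a → X = a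

/-- `b` is a maximal member of `F`. -/
def MaxMem (F : Finset (Finset (Fin n))) (b : Finset (Fin n)) : Prop :=
  b ∈ F ∧ ∀ X ∈ F, b ⊆ X → X = b

theorem exists_minMem {F : Finset (Finset (Fin n))} {W : Finset (Fin n)} (hW : W ∈ F) :
    ∃ a, MinMem F a ∧ a ⊆ W := by
  classical
  obtain ⟨a, ha, hmin⟩ := exists_min_image (F.filter (· ⊆ W)) card ⟨W, by simp [hW]⟩
  rw [mem_filter] at ha
  refine ⟨a, ⟨ha.1, fun X hX hXa => ?_⟩, ha.2⟩
  exact eq_of_subset_of_card_le hXa (hmin X (mem_filter.2 ⟨hX, hXa.trans ha.2⟩))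

theorem exists_maxMem {F : Finset (Finset (Fin n))} {W : Finset (Fin n)} (hW : W ∈ F) :
    ∃ b, MaxMem F b ∧ W ⊆ b := by
  classical
  obtain ⟨a, ha, hmax⟩ := exists_max_image (F.filter (W ⊆ ·)) card ⟨W, by simp [hW]⟩
  rw [mem_filter] at ha
  refine ⟨a, ⟨ha.1, fun X hX hXa => ?_⟩, ha.2⟩
  exact (eq_of_subset_of_card_le hXa (hmax X (mem_filter.2 ⟨hX, ha.2.trans hXa⟩))).symm

/-- A set containing no member of `F` is the bottom of a diamond. -/
theorem Sat.bot_of_empty_below {F : Finset (Finset (Fin n))} (h : Sat F) {S : Finset (Fin n)}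
    (hS : ∀ W ∈ F, ¬ W ⊆ S) : IsBot' F S := by
  have hSF : S ∉ F := fun hm => hS S hm (Subset.refl _)
  rcases h.sat S hSF with hb | ⟨A, B, C, -, hB, -, -, -, hBS, -⟩ | ⟨A, C, D, hA, -, -, hAS, -⟩
  · exact hb
  · exact absurd hBS (hS B hB)
  · exact absurd hAS (hS A hA)

/-- Edge lemma: a direction `i` avoided by a member below every member, and used by
some member, carries an edge of `F`. -/
theorem Sat.edge {F : Finset (Finset (Fin n))} (h : Sat F) (i : Fin n)
    (h1 : ∀ W ∈ F, ∃ a ∈ F, a ⊆ W ∧ i ∉ a) (h2 : ∃ Q ∈ F, i ∈ Q) :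
    ∃ P ∈ F, i ∉ P ∧ insert i P ∈ F := by
  classical
  obtain ⟨Q0, hQ0, hiQ0⟩ := h2
  obtain ⟨a0, ha0, ha0Q, hia0⟩ := h1 Q0 hQ0
  obtain ⟨P, hP, hmax⟩ := exists_max_image
    (F.filter (fun P => i ∉ P ∧ ∃ Q ∈ F, insert i P ⊆ Q)) card
    ⟨a0, mem_filter.2 ⟨ha0, hia0, Q0, hQ0, insert_subset hiQ0 ha0Q⟩⟩
  rw [mem_filter] at hP
  obtain ⟨hPF, hiP, Q, hQ, hPQ⟩ := hP
  refine ⟨P, hPF, hiP, ?_⟩
  by_contra hS
  rcases h.sat _ hS with ⟨B, C, D, hB, hC, hD, hSB, hSC, hBD, hCD, hBC, hCB⟩ |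
    ⟨A, B, C, hA, hB, hC, hAB, hAC, hBS, hCS, hBC, hCB⟩ |
    ⟨A, C, D, hA, hC, hD, hAS, hAC, hSD, hCD, hSC, hCS⟩
  · exact h.free ⟨P, B, C, D, hPF, hB, hC, hD, (subset_insert _ _).trans hSB,
      (subset_insert _ _).trans hSC, hBD, hCD, hBC, hCB⟩
  · exact h.free ⟨A, B, C, Q, hA, hB, hC, hQ, hAB, hAC, hBS.trans hPQ, hCS.trans hPQ, hBC, hCB⟩
  · obtain ⟨a, ha, haA, hia⟩ := h1 A hA
    have haP : a ⊆ P := by
      intro x hx
      rcases mem_insert.1 (hAS (haA hx)) with rfl | hx'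
      · exact absurd hx hia
      · exact hx'
    have hCP : ¬ C ⊆ P := fun hh => hCS (hh.trans (subset_insert _ _))
    have hPC : P ⊆ C := by
      by_contra hPC
      exact h.free ⟨a, P, C, D, ha, hPF, hC, hD, haP, haA.trans hAC,
        (subset_insert _ _).trans hSD, hCD, hPC, hCP⟩
    have hiC : i ∉ C := fun hi => hSC (insert_subset hi hPC)
    have hle := hmax C (mem_filter.2 ⟨hC, hiC, D, hD,
      insert_subset (hSD (mem_insert_self _ _)) hCD⟩)
    exact hCP (by rw [eq_of_subset_of_card_le hPC hle])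

end Pool.Agent.MP_99eff6_co

end

-- part MP_99eff6_co.NoEnds
section

namespace Pool.Agent.MP_99eff6_co

open Finset

variable {n : ℕ}

/-- Key weight lemma (one-sided form). -/
theorem Sat.weight_aux {F : Finset (Finset (Fin n))} (h : Sat F) (w : Fin n → ℚ)
    (hA : ∀ a, MinMem F a → ∑ i ∈ a, w i = 0)
    (hL : ∀ X Y Z, X ∈ F → Y ∈ F → Z ∈ F → X ⊆ Z → Y ⊆ Z → ¬ X ⊆ Y → ¬ Y ⊆ X →
      ∑ i ∈ X, w i = 0)
    (hσ : 0 ≤ ∑ i, w i) (a0 : Finset (Fin n)) (ha0 : MinMem F a0) (i0 : Fin n) (hi0 : i0 ∈ a0) :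
    w i0 = 0 := by
  classical
  by_contra hw
  set S : Finset (Fin n) := univ.filter (fun i => 0 < w i ∨ (i ∈ a0 ∧ w i = 0)) with hSdef
  have hmemS : ∀ i, i ∈ S ↔ 0 < w i ∨ (i ∈ a0 ∧ w i = 0) := by
    intro i; simp [hSdef]
  have hS : ∀ W ∈ F, ¬ W ⊆ S := by
    intro W hW hWS
    obtain ⟨a, ha, haW⟩ := exists_minMem hW
    have hnn : ∀ i ∈ a, 0 ≤ w i := by
      intro i hi
      rcases (hmemS i).1 (hWS (haW hi)) with h1 | h1
      · exact h1.le
      · exact h1.2.ge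
    have hz := (sum_eq_zero_iff_of_nonneg hnn).1 (hA a ha)
    have hsub : a ⊆ a0 := by
      intro i hi
      rcases (hmemS i).1 (hWS (haW hi)) with h1 | h1
      · exact absurd (hz i hi) h1.ne'
      · exact h1.1
    have := ha0.2 a ha.1 hsub
    exact hw (hz i0 (this ▸ hi0))
  obtain ⟨X, Y, Z, hX, hY, hZ, hSX, hSY, hXZ, hYZ, hXY, hYX⟩ := h.bot_of_empty_below hS
  have key : ∀ X : Finset (Fin n), S ⊆ X → ∑ i ∈ X, w i = 0 → a0 ⊆ X := by
    intro X hSX hX0
    have hsplit : ∑ i ∈ X, w i + ∑ i ∈ Xᶜ, w i = ∑ i, w i := sum_add_sum_compl X w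
    have hnp : ∀ i ∈ Xᶜ, w i ≤ 0 := by
      intro i hi
      by_contra hpos
      exact (mem_compl.1 hi) (hSX ((hmemS i).2 (Or.inl (not_le.1 hpos))))
    have hle : ∑ i ∈ Xᶜ, w i ≤ 0 := sum_nonpos hnp
    have heq : ∑ i ∈ Xᶜ, w i = 0 := by linarith
    have hz := (sum_eq_zero_iff_of_nonpos hnp).1 heq
    intro i hi
    by_contra hiX
    exact hiX (hSX ((hmemS i).2 (Or.inr ⟨hi, hz i (mem_compl.2 hiX)⟩)))
  exact h.free ⟨a0, X, Y, Z, ha0.1, hX, hY, hZ,
    key X hSX (hL X Y Z hX hY hZ hXZ hYZ hXY hYX),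
    key Y hSY (hL Y X Z hY hX hZ hYZ hXZ hYX hXY), hXZ, hYZ, hXY, hYX⟩

/-- Key weight lemma. -/
theorem Sat.weight {F : Finset (Finset (Fin n))} (h : Sat F) (w : Fin n → ℚ)
    (hA : ∀ a, MinMem F a → ∑ i ∈ a, w i = 0)
    (hL : ∀ X Y Z, X ∈ F → Y ∈ F → Z ∈ F → X ⊆ Z → Y ⊆ Z → ¬ X ⊆ Y → ¬ Y ⊆ X →
      ∑ i ∈ X, w i = 0)
    (a0 : Finset (Fin n)) (ha0 : MinMem F a0) (i0 : Fin n) (hi0 : i0 ∈ a0) :
    w i0 = 0 := by
  rcases le_total 0 (∑ i, w i) with hσ | hσ
  · exact h.weight_aux w hA hL hσ a0 ha0 i0 hi0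
  · have := h.weight_aux (fun i => - w i)
      (fun a ha => by rw [sum_neg_distrib, hA a ha, neg_zero])
      (fun X Y Z hX hY hZ h1 h2 h3 h4 => by
        rw [sum_neg_distrib, hL X Y Z hX hY hZ h1 h2 h3 h4, neg_zero])
      (by rw [sum_neg_distrib]; linarith) a0 ha0 i0 hi0
    simpa using this

theorem Sat.exists_pair {F : Finset (Finset (Fin n))} (h : Sat F) (h0 : ∅ ∉ F)
    (h1 : univ ∉ F) :
    ∃ b0 ∈ F, ∃ b1 ∈ F, b0 ≠ b1 ∧ ∀ w : Fin n → ℚ,
      (∀ X ∈ F, X ≠ b0 → X ≠ b1 → ∑ i ∈ X, w i = 0) → w = 0 := by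
  classical
  set N : Finset (Fin n) := univ.filter (fun i => ∀ a, MinMem F a → i ∉ a) with hNdef
  have hmemN : ∀ i, i ∈ N ↔ ∀ a, MinMem F a → i ∉ a := by
    intro i; simp [hNdef]
  have hN : ∀ W ∈ F, ¬ W ⊆ N := by
    intro W hW hWN
    obtain ⟨a, ha, haW⟩ := exists_minMem hW
    have : a = ∅ := by
      rw [eq_empty_iff_forall_notMem]
      intro i hi
      exact (hmemN i).1 (hWN (haW hi)) a ha hi
    exact h0 (this ▸ ha.1)
  obtain ⟨X0, Y0, Z0, hX0, hY0, hZ0, hNX, hNY, hXZ, hYZ, hXY, hYX⟩ := h.bot_of_empty_below hN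
  obtain ⟨b0, hb0, hZb⟩ := exists_maxMem hZ0
  have hb0min : ¬ MinMem F b0 := by
    intro hm
    have := hm.2 X0 hX0 (hXZ.trans hZb)
    exact hYX (this ▸ hYZ.trans hZb)
  -- two distinct maximal non-minimal members
  have htwo : ∃ b1, MaxMem F b1 ∧ ¬ MinMem F b1 ∧ b0 ≠ b1 := by
    rcases h.sat univ h1 with ⟨B, C, D, -, -, -, hSB, hSC, -, -, hBC, -⟩ |
      ⟨A, B, C, hA, hB, hC, hAB, hAC, -, -, hBC, hCB⟩ |
      ⟨A, C, D, -, -, hD, -, -, hSD, -⟩
    · exact absurd ((subset_univ B).trans hSC) hBC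
    · obtain ⟨b, hb, hBb⟩ := exists_maxMem hB
      obtain ⟨b', hb', hCb⟩ := exists_maxMem hC
      have hne : b ≠ b' := by
        rintro rfl
        exact h.free ⟨A, B, C, b, hA, hB, hC, hb.1, hAB, hAC, hBb, hCb, hBC, hCB⟩
      have hbm : ¬ MinMem F b := by
        intro hm
        have := hm.2 A hA (hAB.trans hBb)
        exact hBC (hBb.trans (this ▸ hAC))
      have hbm' : ¬ MinMem F b' := by
        intro hm
        have := hm.2 A hA (hAC.trans hCb)
        exact hCB (hCb.trans (this ▸ hAB))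
      by_cases hb0b : b0 = b
      · exact ⟨b', hb', hbm', hb0b ▸ hne⟩
      · exact ⟨b, hb, hbm, hb0b⟩
    · exact absurd (univ_subset_iff.1 hSD ▸ hD) h1
  obtain ⟨b1, hb1, hb1min, hne⟩ := htwo
  refine ⟨b0, hb0.1, b1, hb1.1, hne, ?_⟩
  -- non-maximal members have weight zero
  have main : ∀ w : Fin n → ℚ, (∀ X ∈ F, X ≠ b0 → X ≠ b1 → ∑ i ∈ X, w i = 0) →
      0 ≤ ∑ i ∈ b1, w i → w = 0 := by
    intro w hw hb1w
    have hnm : ∀ X ∈ F, ¬ MaxMem F X → ∑ i ∈ X, w i = 0 := by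
      intro X hX hXm
      exact hw X hX (fun e => hXm (e ▸ hb0)) (fun e => hXm (e ▸ hb1))
    have hLnm : ∀ X Y Z, X ∈ F → Y ∈ F → Z ∈ F → X ⊆ Z → Y ⊆ Z → ¬ X ⊆ Y → ¬ Y ⊆ X →
        ∑ i ∈ X, w i = 0 := by
      intro X Y Z hX hY hZ h1 h2 h3 h4
      refine hnm X hX (fun hm => h4 ?_)
      rw [← hm.2 Z hZ h1]; exact h2
    have hoff : ∀ i, i ∉ N → w i = 0 := by
      intro i hi
      rw [hmemN] at hi
      push Not at hi
      obtain ⟨a, ha, hia⟩ := hi
      exact h.weight w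
        (fun a ha => hw a ha.1 (fun e => hb0min (e ▸ ha)) (fun e => hb1min (e ▸ ha)))
        hLnm a ha i hia
    have hsumN : ∀ X : Finset (Fin n), N ⊆ X → ∑ i ∈ X, w i = ∑ i ∈ N, w i := by
      intro X hNX
      exact (sum_subset hNX (fun i _ hi => hoff i hi)).symm
    have hN0 : ∑ i ∈ N, w i = 0 := by
      rw [← hsumN X0 hNX]; exact hLnm X0 Y0 Z0 hX0 hY0 hZ0 hXZ hYZ hXY hYX
    have hb00 : ∑ i ∈ b0, w i = 0 := by
      rw [hsumN b0 (hNX.trans (hXZ.trans hZb)), hN0]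
    have hall : ∀ X ∈ F, 0 ≤ ∑ i ∈ X, w i := by
      intro X hX
      by_cases e0 : X = b0
      · rw [e0, hb00]
      by_cases e1 : X = b1
      · rw [e1]; exact hb1w
      · rw [hw X hX e0 e1]
    have hnn : ∀ i ∈ N, 0 ≤ w i := by
      intro i hi
      obtain ⟨P, hP, hiP, hiPF⟩ := h.edge i
        (fun W hW => by
          obtain ⟨a, ha, haW⟩ := exists_minMem hW
          exact ⟨a, ha.1, haW, (hmemN i).1 hi a ha⟩)
        ⟨X0, hX0, hNX hi⟩
      have hP0 : ∑ j ∈ P, w j = 0 := by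
        refine hnm P hP (fun hm => hiP ?_)
        rw [← hm.2 _ hiPF (subset_insert _ _)]
        exact mem_insert_self _ _
      have := hall _ hiPF
      rw [sum_insert hiP, hP0, add_zero] at this
      exact this
    have hz := (sum_eq_zero_iff_of_nonneg hnn).1 hN0
    funext i
    by_cases hi : i ∈ N
    · exact hz i hi
    · exact hoff i hi
  intro w hw
  rcases le_total 0 (∑ i ∈ b1, w i) with hs | hs
  · exact main w hw hs
  · have := main (fun i => - w i)
      (fun X hX e0 e1 => by rw [sum_neg_distrib, hw X hX e0 e1, neg_zero])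
      (by rw [sum_neg_distrib]; linarith)
    funext i
    have hi := congrFun this i
    simpa using hi

/-- A diamond-saturated family containing neither `∅` nor `[n]` has at least `n + 2` members. -/
theorem Sat.card_ge_of_no_ends {F : Finset (Finset (Fin n))} (h : Sat F) (h0 : ∅ ∉ F)
    (h1 : univ ∉ F) : n + 2 ≤ F.card := by
  classical
  obtain ⟨b0, hb0, b1, hb1, hne, hker⟩ := h.exists_pair h0 h1
  set G := (F.erase b0).erase b1 with hG
  have hGcard : G.card + 2 = F.card := by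
    have e1 : b1 ∈ F.erase b0 := mem_erase.2 ⟨hne.symm, hb1⟩
    rw [hG, card_erase_of_mem e1, card_erase_of_mem hb0]
    have : 2 ≤ F.card := by
      have : ({b0, b1} : Finset _) ⊆ F := by
        intro x hx
        rcases mem_insert.1 hx with rfl | hx
        · exact hb0
        · rw [mem_singleton.1 hx]; exact hb1
      have := card_le_card this
      rwa [card_pair hne] at this
    omega
  let L : (Fin n → ℚ) →ₗ[ℚ] (G → ℚ) :=
    { toFun := fun w X => ∑ i ∈ (X : Finset (Fin n)), w i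
      map_add' := fun w w' => by funext X; simp [sum_add_distrib]
      map_smul' := fun c w => by funext X; simp [mul_sum] }
  have hinj : Function.Injective L := by
    rw [← LinearMap.ker_eq_bot, LinearMap.ker_eq_bot']
    intro w hw
    refine hker w (fun X hX e0 e1 => ?_)
    exact congrFun hw ⟨X, mem_erase.2 ⟨e1, mem_erase.2 ⟨e0, hX⟩⟩⟩
  have := LinearMap.finrank_le_finrank_of_injective hinj
  simp only [Module.finrank_fintype_fun_eq_card, Fintype.card_fin, Fintype.card_coe] at this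
  omega

end Pool.Agent.MP_99eff6_co

end

-- part MP_99eff6_co.Ends
section

namespace Pool.Agent.MP_99eff6_co

open Finset

variable {n : ℕ}

/-- If `∅ ∈ F` and `|F| = n + 1`, the nonempty members are labelled by the points of `[n]`. -/
theorem Sat.labels {F : Finset (Finset (Fin n))} (h : Sat F) (h0 : ∅ ∈ F)
    (hc : F.card = n + 1) :
    ∃ E : Fin n → Finset (Fin n), (∀ i, E i ∈ F ∧ i ∈ E i ∧ (E i).erase i ∈ F) ∧
      ∀ X ∈ F, X ≠ ∅ → ∃ i, E i = X := by
  classical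
  have hedge : ∀ i : Fin n, ∃ P ∈ F, i ∉ P ∧ insert i P ∈ F := by
    intro i
    refine h.edge i (fun W _ => ⟨∅, h0, empty_subset _, notMem_empty _⟩) ?_
    by_cases hi : ({i} : Finset (Fin n)) ∈ F
    · exact ⟨{i}, hi, mem_singleton_self _⟩
    rcases h.sat _ hi with ⟨B, C, D, hB, hC, hD, -, -, hBD, hCD, hBC, hCB⟩ |
      ⟨A, B, C, -, -, -, -, -, hBS, hCS, hBC, hCB⟩ |
      ⟨A, C, D, -, -, hD, -, -, hSD, -⟩
    · exact absurd ⟨∅, B, C, D, h0, hB, hC, hD, empty_subset _, empty_subset _, hBD, hCD,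
        hBC, hCB⟩ h.free
    · exfalso
      rcases subset_singleton_iff.1 hBS with rfl | rfl
      · exact hBC (empty_subset _)
      · exact hCB hCS
    · exact ⟨D, hD, hSD (mem_singleton_self _)⟩
  choose P hPF hiP hE using hedge
  let E : Fin n → Finset (Fin n) := fun i => insert i (P i)
  have hinj : Function.Injective E := by
    intro i j hij
    by_contra hne
    have hjP : j ∈ P i := by
      have : j ∈ E i := by rw [hij]; exact mem_insert_self _ _
      rcases mem_insert.1 this with e | e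
      · exact absurd e.symm hne
      · exact e
    have hiP' : i ∈ P j := by
      have : i ∈ E j := by rw [← hij]; exact mem_insert_self _ _
      rcases mem_insert.1 this with e | e
      · exact absurd e hne
      · exact e
    refine h.free ⟨∅, P i, P j, E i, h0, hPF i, hPF j, hE i, empty_subset _, empty_subset _,
      subset_insert _ _, ?_, fun hh => hiP j (hh hjP), fun hh => hiP i (hh hiP')⟩
    rw [hij]; exact subset_insert _ _
  have hsub : univ.image E ⊆ F.erase ∅ := by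
    intro X hX
    obtain ⟨i, -, rfl⟩ := mem_image.1 hX
    exact mem_erase.2 ⟨(insert_nonempty _ _).ne_empty, hE i⟩
  have heq : univ.image E = F.erase ∅ := by
    refine eq_of_subset_of_card_le hsub ?_
    rw [card_erase_of_mem h0, card_image_of_injective _ hinj, hc]
    simp
  refine ⟨E, fun i => ⟨hE i, mem_insert_self _ _, ?_⟩, fun X hX hne => ?_⟩
  · show (insert i (P i)).erase i ∈ F
    rw [erase_insert (hiP i)]; exact hPF i
  · have : X ∈ univ.image E := heq ▸ mem_erase.2 ⟨hne, hX⟩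
    obtain ⟨i, -, hi⟩ := mem_image.1 this
    exact ⟨i, hi⟩

theorem Sat.singletons {F : Finset (Finset (Fin n))} (h : Sat F) (h0 : ∅ ∈ F)
    (h1 : univ ∉ F) (hc : F.card = n + 1) :
    F = insert ∅ (univ.image (fun i : Fin n => ({i} : Finset (Fin n)))) := by
  classical
  obtain ⟨E, hE, hlab⟩ := h.labels h0 hc
  -- every nonempty member contains a root
  have hroot : ∀ k, ∀ X ∈ F, X.card = k → X ≠ ∅ → ∃ r ∈ X, ({r} : Finset (Fin n)) ∈ F := by
    intro k
    induction k using Nat.strong_induction_on with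
    | _ k ih =>
      intro X hX hk hne
      obtain ⟨i, rfl⟩ := hlab X hX hne
      obtain ⟨-, hi, hF⟩ := hE i
      by_cases he : (E i).erase i = ∅
      · refine ⟨i, hi, ?_⟩
        have : E i = {i} := by rw [← insert_erase hi, he]; rfl
        exact this ▸ hX
      · obtain ⟨r, hr, hrF⟩ := ih _ (hk ▸ card_erase_lt_of_mem hi) _ hF rfl he
        exact ⟨r, mem_of_mem_erase hr, hrF⟩
  -- every member containing `y` contains `E y`
  have hup : ∀ y k, ∀ X ∈ F, X.card = k → y ∈ X → E y ⊆ X := by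
    intro y k
    induction k using Nat.strong_induction_on with
    | _ k ih =>
      intro X hX hk hy
      obtain ⟨i, rfl⟩ := hlab X hX (ne_empty_of_mem hy)
      obtain ⟨-, hi, hF⟩ := hE i
      by_cases e : y = i
      · rw [e]
      · exact (ih _ (hk ▸ card_erase_lt_of_mem hi) _ hF rfl (mem_erase.2 ⟨e, hy⟩)).trans
          (erase_subset _ _)
  have hnobot : ∀ S, ¬ IsBot' F S := by
    rintro S ⟨B, C, D, hB, hC, hD, -, -, hBD, hCD, hBC, hCB⟩
    exact h.free ⟨∅, B, C, D, h0, hB, hC, hD, empty_subset _, empty_subset _, hBD, hCD, hBC, hCB⟩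
  have htworoots : ∀ r r' : Fin n, ∀ D ∈ F, ({r} : Finset (Fin n)) ∈ F →
      ({r'} : Finset (Fin n)) ∈ F → r ∈ D → r' ∈ D → r = r' := by
    intro r r' D hD hr hr' hrD hr'D
    by_contra hne
    exact h.free ⟨∅, {r}, {r'}, D, h0, hr, hr', hD, empty_subset _, empty_subset _,
      singleton_subset_iff.2 hrD, singleton_subset_iff.2 hr'D,
      fun hh => hne (mem_singleton.1 (singleton_subset_iff.1 hh)),
      fun hh => hne (mem_singleton.1 (singleton_subset_iff.1 hh)).symm⟩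
  have hall : ∀ y : Fin n, ({y} : Finset (Fin n)) ∈ F := by
    intro y
    by_contra hy
    obtain ⟨r, hrE, hrF⟩ := hroot _ (E y) (hE y).1 rfl (ne_empty_of_mem (hE y).2.1)
    have hry : r ≠ y := fun e => hy (e ▸ hrF)
    by_cases hex : ∃ r' : Fin n, r' ≠ r ∧ ({r'} : Finset (Fin n)) ∈ F
    · obtain ⟨r', hr'r, hr'F⟩ := hex
      have hr'y : r' ≠ y := fun e => hy (e ▸ hr'F)
      have hnoD : ∀ D ∈ F, ¬ ({r', y} : Finset (Fin n)) ⊆ D := by
        intro D hD hsub
        have hyD : y ∈ D := hsub (by simp)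
        have hr'D : r' ∈ D := hsub (by simp)
        exact hr'r (htworoots r' r D hD hr'F hrF hr'D (hup y _ D hD rfl hyD hrE))
      have hS : ({r', y} : Finset (Fin n)) ∉ F := fun hm => hnoD _ hm (Subset.refl _)
      rcases h.sat _ hS with hb | ⟨A, B, C, -, hB, hC, -, -, hBS, hCS, hBC, hCB⟩ |
        ⟨A, C, D, -, -, hD, -, -, hSD, -⟩
      · exact hnobot _ hb
      · have aux : ∀ B ∈ F, B ⊆ ({r', y} : Finset (Fin n)) → B ⊆ {r'} := by
          intro B hB hBS x hx
          rcases mem_insert.1 (hBS hx) with e | e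
          · exact mem_singleton.2 e
          · exfalso
            have hyB : y ∈ B := mem_singleton.1 e ▸ hx
            have hrB : r ∈ B := hup y _ B hB rfl hyB hrE
            rcases mem_insert.1 (hBS hrB) with e' | e'
            · exact hr'r e'.symm
            · exact hry (mem_singleton.1 e')
        rcases subset_singleton_iff.1 (aux B hB hBS) with rfl | rfl
        · exact hBC (empty_subset _)
        · exact hCB (aux C hC hCS)
      · exact hnoD D hD hSD
    · push Not at hex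
      have hrall : ∀ X ∈ F, X ≠ ∅ → r ∈ X := by
        intro X hX hne
        obtain ⟨r', hr'X, hr'F⟩ := hroot _ X hX rfl hne
        by_cases e : r' = r
        · exact e ▸ hr'X
        · exact absurd hr'F (hex r' e)
      have hyS : y ∈ univ.erase r := mem_erase.2 ⟨hry.symm, mem_univ _⟩
      have hS : univ.erase r ∉ F := fun hm =>
        notMem_erase r univ (hrall _ hm (ne_empty_of_mem hyS))
      rcases h.sat _ hS with hb | ⟨A, B, C, -, hB, hC, -, -, hBS, hCS, hBC, hCB⟩ |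
        ⟨A, C, D, -, -, hD, -, -, hSD, -⟩
      · exact hnobot _ hb
      · have hne : B ≠ ∅ := fun e => hBC (e ▸ empty_subset _)
        exact notMem_erase r univ (hBS (hrall B hB hne))
      · have hrD : r ∈ D := hrall D hD (ne_empty_of_mem (hSD hyS))
        have : D = univ := by
          rw [eq_univ_iff_forall]
          intro x
          by_cases e : x = r
          · exact e ▸ hrD
          · exact hSD (mem_erase.2 ⟨e, mem_univ _⟩)
        exact h1 (this ▸ hD)
  symm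
  refine eq_of_subset_of_card_le ?_ ?_
  · intro X hX
    rcases mem_insert.1 hX with rfl | hX
    · exact h0
    · obtain ⟨i, -, rfl⟩ := mem_image.1 hX
      exact hall i
  · rw [card_insert_of_notMem, card_image_of_injective _ singleton_injective, hc]
    · simp
    · intro hm
      obtain ⟨i, -, hi⟩ := mem_image.1 hm
      exact singleton_ne_empty i hi

/-- Complementation preserves saturation. -/
theorem Sat.compl {F : Finset (Finset (Fin n))} (h : Sat F) : Sat (F.image (·ᶜ)) := by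
  classical
  have hm : ∀ X : Finset (Fin n), X ∈ F.image (·ᶜ) ↔ Xᶜ ∈ F := by
    intro X
    constructor
    · intro hX
      obtain ⟨Y, hY, rfl⟩ := mem_image.1 hX
      simpa using hY
    · intro hX
      exact mem_image.2 ⟨Xᶜ, hX, compl_compl X⟩
  have hc : ∀ X : Finset (Fin n), X ∈ F → Xᶜ ∈ F.image (·ᶜ) := fun X hX => mem_image_of_mem _ hX
  have s1 : ∀ X Y : Finset (Fin n), Xᶜ ⊆ Yᶜ ↔ Y ⊆ X := fun X Y => compl_subset_compl
  have s2 : ∀ X Y : Finset (Fin n), Xᶜ ⊆ Y ↔ Yᶜ ⊆ X := fun X Y => by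
    rw [← s1, compl_compl]
  have s3 : ∀ X Y : Finset (Fin n), X ⊆ Yᶜ ↔ Y ⊆ Xᶜ := fun X Y => by
    rw [← s1, compl_compl]
  constructor
  · rintro ⟨A, B, C, D, hA, hB, hC, hD, hAB, hAC, hBD, hCD, hBC, hCB⟩
    rw [hm] at hA hB hC hD
    exact h.free ⟨Dᶜ, Bᶜ, Cᶜ, Aᶜ, hD, hB, hC, hA, (s1 _ _).2 hBD, (s1 _ _).2 hCD,
      (s1 _ _).2 hAB, (s1 _ _).2 hAC, fun hh => hCB ((s1 _ _).1 hh), fun hh => hBC ((s1 _ _).1 hh)⟩
  · intro S hS
    rw [hm] at hS
    rcases h.sat _ hS with ⟨B, C, D, hB, hC, hD, hSB, hSC, hBD, hCD, hBC, hCB⟩ |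
      ⟨A, B, C, hA, hB, hC, hAB, hAC, hBS, hCS, hBC, hCB⟩ |
      ⟨A, C, D, hA, hC, hD, hAS, hAC, hSD, hCD, hSC, hCS⟩
    · right; left
      exact ⟨Dᶜ, Bᶜ, Cᶜ, hc _ hD, hc _ hB, hc _ hC, (s1 _ _).2 hBD, (s1 _ _).2 hCD,
        (s2 _ _).1 hSB, (s2 _ _).1 hSC, fun hh => hCB ((s1 _ _).1 hh),
        fun hh => hBC ((s1 _ _).1 hh)⟩
    · left
      exact ⟨Bᶜ, Cᶜ, Aᶜ, hc _ hB, hc _ hC, hc _ hA, (s3 _ _).1 hBS, (s3 _ _).1 hCS,
        (s1 _ _).2 hAB, (s1 _ _).2 hAC, fun hh => hCB ((s1 _ _).1 hh),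
        fun hh => hBC ((s1 _ _).1 hh)⟩
    · right; right
      exact ⟨Dᶜ, Cᶜ, Aᶜ, hc _ hD, hc _ hC, hc _ hA, (s2 _ _).1 hSD, (s1 _ _).2 hCD,
        (s3 _ _).1 hAS, (s1 _ _).2 hAC, fun hh => hCS ((s3 _ _).1 hh),
        fun hh => hSC ((s2 _ _).1 hh)⟩

theorem Sat.cosingletons {F : Finset (Finset (Fin n))} (h : Sat F) (h0 : ∅ ∉ F)
    (h1 : univ ∈ F) (hc : F.card = n + 1) :
    F = insert univ (univ.image (fun i : Fin n => ({i} : Finset (Fin n))ᶜ)) := by
  classical
  have hG := h.compl.singletons (mem_image.2 ⟨univ, h1, compl_univ⟩)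
    (fun hm => by
      obtain ⟨Y, hY, e⟩ := mem_image.1 hm
      have : Y = ∅ := by simpa using e
      exact h0 (this ▸ hY))
    (by rw [card_image_of_injective _ compl_injective, hc])
  have : F = (F.image (·ᶜ)).image (·ᶜ) := by
    rw [image_image]
    have : ((·ᶜ) ∘ (·ᶜ) : Finset (Fin n) → Finset (Fin n)) = id := by
      funext X; simp
    rw [this, image_id]
  rw [this, hG, image_insert, image_image, compl_empty]
  rfl

theorem Sat.chain {F : Finset (Finset (Fin n))} (h : Sat F) (h0 : ∅ ∈ F)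
    (h1 : univ ∈ F) (hc : F.card = n + 1) :
    ∃ C : Fin (n + 1) → Finset (Fin n), StrictMono C ∧ C 0 = ∅ ∧ C (Fin.last n) = univ ∧
      F = univ.image C := by
  classical
  have hcomp : ∀ B ∈ F, ∀ C ∈ F, B ⊆ C ∨ C ⊆ B := by
    intro B hB C hC
    by_contra hn
    push Not at hn
    exact h.free ⟨∅, B, C, univ, h0, hB, hC, h1, empty_subset _, empty_subset _,
      subset_univ _, subset_univ _, hn.1, hn.2⟩
  have hcardinj : ∀ B ∈ F, ∀ C ∈ F, B.card = C.card → B = C := by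
    intro B hB C hC e
    rcases hcomp B hB C hC with hh | hh
    · exact eq_of_subset_of_card_le hh e.ge
    · exact (eq_of_subset_of_card_le hh e.le).symm
  have hsurj : ∀ k : Fin (n + 1), ∃ X ∈ F, X.card = k := by
    intro k
    have himg : F.image card = range (n + 1) := by
      refine eq_of_subset_of_card_le ?_ ?_
      · intro m hm
        obtain ⟨X, -, rfl⟩ := mem_image.1 hm
        have := card_le_univ X
        rw [Fintype.card_fin] at this
        exact mem_range.2 (by omega)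
      · rw [card_image_of_injOn (fun B hB C hC e => hcardinj B hB C hC e), hc, card_range]
    have : (k : ℕ) ∈ F.image card := himg ▸ mem_range.2 k.2
    obtain ⟨X, hX, e⟩ := mem_image.1 this
    exact ⟨X, hX, e⟩
  choose C hCF hCc using hsurj
  refine ⟨C, ?_, ?_, ?_, ?_⟩
  · intro a b hab
    have hlt : (C a).card < (C b).card := by rw [hCc, hCc]; exact hab
    rcases hcomp _ (hCF a) _ (hCF b) with hh | hh
    · exact lt_of_le_of_ne hh (fun e => by rw [e] at hlt; exact lt_irrefl _ hlt)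
    · exact absurd (card_le_card hh) (not_le.2 hlt)
  · exact card_eq_zero.1 (by rw [hCc]; rfl)
  · exact eq_univ_of_card _ (by rw [hCc]; simp)
  · ext X
    constructor
    · intro hX
      have hle := card_le_univ X
      rw [Fintype.card_fin] at hle
      exact mem_image.2 ⟨⟨X.card, by omega⟩, mem_univ _, hcardinj _ (hCF _) _ hX (by rw [hCc])⟩
    · intro hX
      obtain ⟨k, -, rfl⟩ := mem_image.1 hX
      exact hCF k

theorem classification (F : Finset (Finset (Fin n))) (hF : DiamondSaturated F)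
    (hc : F.card = n + 1) :
    (∃ C : Fin (n + 1) → Finset (Fin n), StrictMono C ∧ C 0 = ∅ ∧ C (Fin.last n) = univ ∧
      F = univ.image C) ∨
    F = insert ∅ (univ.image (fun i : Fin n => ({i} : Finset (Fin n)))) ∨
    F = insert univ (univ.image (fun i : Fin n => ({i} : Finset (Fin n))ᶜ)) := by
  have h := sat_of F hF
  by_cases h0 : ∅ ∈ F <;> by_cases h1 : univ ∈ F
  · exact Or.inl (h.chain h0 h1 hc)
  · exact Or.inr (Or.inl (h.singletons h0 h1 hc))
  · exact Or.inr (Or.inr (h.cosingletons h0 h1 hc))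
  · have := h.card_ge_of_no_ends h0 h1
    omega

end Pool.Agent.MP_99eff6_co

end
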