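import Pool.Agent.MP_99eff6_co.Mg.Ends

-- part MP_99eff6_co.H9.Tree
section

/-! Tree counting above a member of a diamond-saturated family. -/

namespace Pool.Agent.MP_99eff6_co.H9

open Finset
open scoped Classical

variable {n : ℕ} {F : Finset (Finset (Fin n))}

/-- `i` lies in no minimal member -/
def InN (F : Finset (Finset (Fin n))) (i : Fin n) : Prop := ∀ a, MinMem F a → i ∉ a

/-- `i` lies in every maximal member -/
def InM (F : Finset (Finset (Fin n))) (i : Fin n) : Prop := ∀ b, MaxMem F b → i ∈ b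

theorem cmp (h : Sat F) {A B C D : Finset (Fin n)} (hA : A ∈ F) (hB : B ∈ F) (hC : C ∈ F)
    (hD : D ∈ F) (h1 : A ⊆ B) (h2 : A ⊆ C) (h3 : B ⊆ D) (h4 : C ⊆ D) : B ⊆ C ∨ C ⊆ B := by
  by_contra hc
  rw [not_or] at hc
  exact h.free ⟨A, B, C, D, hA, hB, hC, hD, h1, h2, h3, h4, hc.1, hc.2⟩

theorem up_step (h : Sat F) {W S D0 : Finset (Fin n)} (hW : W ∈ F) (hWS : W ⊆ S)
    (hN : ∀ i ∈ S, i ∉ W → InN F i) (hD0 : D0 ∈ F) (hS : S ⊆ D0) (hSF : S ∉ F) :
    ∃ C ∈ F, ∃ D ∈ F, W ⊆ C ∧ C ≠ W ∧ C ⊆ D ∧ S ⊆ D ∧ ¬ S ⊆ C := by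
  rcases h.sat _ hSF with ⟨B, C, D, hB, hC, hD, hSB, hSC, hBD, hCD, hBC, hCB⟩ |
    ⟨A, B, C, hA, hB, hC, hAB, hAC, hBS, hCS, hBC, hCB⟩ |
    ⟨A, C, D, hA, hC, hD, hAS, hAC, hSD, hCD, hSC, hCS⟩
  · exact absurd ⟨W, B, C, D, hW, hB, hC, hD, hWS.trans hSB, hWS.trans hSC, hBD, hCD, hBC, hCB⟩
      h.free
  · exact absurd ⟨A, B, C, D0, hA, hB, hC, hD0, hAB, hAC, hBS.trans hS, hCS.trans hS, hBC, hCB⟩
      h.free
  · obtain ⟨a, ha, haA⟩ := exists_minMem hA
    have haW : a ⊆ W := fun i hi => by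
      by_contra hiW
      exact hN i (hAS (haA hi)) hiW a ha hi
    rcases cmp h ha.1 hW hC hD haW (haA.trans hAC) (hWS.trans hSD) hCD with h1 | h1
    · exact ⟨C, hC, D, hD, h1, fun e => hCS (e ▸ hWS), hCD, hSD, hSC⟩
    · exact absurd (h1.trans hWS) hCS

/-- `Q` covers `P` in `F` -/
def Cv (F : Finset (Finset (Fin n))) (P Q : Finset (Fin n)) : Prop :=
  P ∈ F ∧ Q ∈ F ∧ P ⊆ Q ∧ Q ≠ P ∧ ∀ X ∈ F, P ⊆ X → X ⊆ Q → X = P ∨ X = Q

theorem exists_cv {P D : Finset (Fin n)} (hP : P ∈ F) (hD : D ∈ F) (hPD : P ⊆ D) (hne : D ≠ P) :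
    ∃ Q, Cv F P Q ∧ Q ⊆ D := by
  obtain ⟨Q, hQ, hmin⟩ := exists_min_image (F.filter fun X => P ⊆ X ∧ X ≠ P ∧ X ⊆ D) card
    ⟨D, mem_filter.2 ⟨hD, hPD, hne, Subset.refl _⟩⟩
  obtain ⟨h1, h2, h3, h4⟩ := mem_filter.1 hQ
  refine ⟨Q, ⟨hP, h1, h2, h3, fun X hX a b => ?_⟩, h4⟩
  by_cases e : X = P
  · exact Or.inl e
  · exact Or.inr (eq_of_subset_of_card_le b (hmin X (mem_filter.2 ⟨hX, a, e, b.trans h4⟩)))

theorem Cv.eq_of_upper (h : Sat F) {P Q Q' D : Finset (Fin n)} (h1 : Cv F P Q) (h2 : Cv F P Q')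
    (hD : D ∈ F) (a : Q ⊆ D) (b : Q' ⊆ D) : Q = Q' := by
  rcases cmp h h1.1 h1.2.1 h2.2.1 hD h1.2.2.1 h2.2.2.1 a b with c | c
  · exact (h2.2.2.2.2 Q h1.2.1 h1.2.2.1 c).resolve_left h1.2.2.2.1
  · exact ((h1.2.2.2.2 Q' h2.2.1 h2.2.2.1 c).resolve_left h2.2.2.2.1).symm

theorem Cv.card_lt {P Q : Finset (Fin n)} (h : Cv F P Q) : P.card < Q.card :=
  card_lt_card (ssubset_of_subset_of_ne h.2.2.1 h.2.2.2.1.symm)

/-- some cover of `P` adds a point of `Γ` -/
def Act (F : Finset (Finset (Fin n))) (Γ P : Finset (Fin n)) : Prop :=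
  ∃ Q, Cv F P Q ∧ ∃ i ∈ Γ, i ∈ Q ∧ i ∉ P

theorem Act.mono {Γ Γ' P : Finset (Fin n)} (h : Act F Γ P) (hΓ : Γ ⊆ Γ') : Act F Γ' P :=
  let ⟨Q, a, i, b, c⟩ := h; ⟨Q, a, i, hΓ b, c⟩

theorem Act.not_sub {Γ P : Finset (Fin n)} (h : Act F Γ P) : ¬ Γ ⊆ P :=
  fun e => let ⟨_, _, _, b, c⟩ := h; c.2 (e b)

theorem Act.not_max {Γ P : Finset (Fin n)} (h : Act F Γ P) : ¬ MaxMem F P :=
  fun e => let ⟨Q, a, _⟩ := h; a.2.2.2.1 (e.2 Q a.2.1 a.2.2.1)

/-- active members above `W` -/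
noncomputable def upA (F : Finset (Finset (Fin n))) (Γ W : Finset (Fin n)) :
    Finset (Finset (Fin n)) := F.filter fun P => W ⊆ P ∧ Act F Γ P

theorem upA_sum (h : Sat F) {Γ W : Finset (Fin n)} (hW : W ∈ F) (ha : Act F Γ W) :
    1 + ∑ u ∈ F.filter (Cv F W), (upA F Γ u).card ≤ (upA F Γ W).card := by
  rw [← card_biUnion]
  · have : W ∉ (F.filter (Cv F W)).biUnion (upA F Γ) := fun hm => by
      obtain ⟨u, hu, hm⟩ := mem_biUnion.1 hm
      have hc := (mem_filter.1 hu).2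
      exact hc.2.2.2.1 (Subset.antisymm (mem_filter.1 hm).2.1 hc.2.2.1)
    rw [add_comm, ← card_insert_of_notMem this]
    refine card_le_card (insert_subset (mem_filter.2 ⟨hW, Subset.refl _, ha⟩) fun P hP => ?_)
    obtain ⟨u, hu, hm⟩ := mem_biUnion.1 hP
    obtain ⟨a, b, c⟩ := mem_filter.1 hm
    exact mem_filter.2 ⟨a, (mem_filter.1 hu).2.2.2.1.trans b, c⟩
  · intro u hu v hv huv
    refine disjoint_left.2 fun P h1 h2 => huv ?_
    exact Cv.eq_of_upper h (mem_filter.1 hu).2 (mem_filter.1 hv).2 (mem_filter.1 h1).1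
      (mem_filter.1 h1).2.1 (mem_filter.1 h2).2.1

theorem peel (rk : Finset (Fin n) → ℕ) (U : Finset (Finset (Fin n))) : ∀ R0 : Finset (Fin n),
    (∀ R ⊆ R0, R.Nonempty → ∃ u ∈ U, (R \ u).Nonempty ∧ (R \ u).card ≤ rk u) →
    R0.card ≤ ∑ u ∈ U, rk u := by
  induction U using Finset.strongInduction with
  | H U ih =>
    intro R0 h
    rcases R0.eq_empty_or_nonempty with rfl | hne
    · simp
    obtain ⟨u, hu, -, h2⟩ := h R0 (Subset.refl _) hne
    have := ih (U.erase u) (erase_ssubset hu) (R0 ∩ u) fun R hR hR' => by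
      obtain ⟨v, hv, a, b⟩ := h R (hR.trans inter_subset_left) hR'
      refine ⟨v, mem_erase.2 ⟨fun e => ?_, hv⟩, a, b⟩
      obtain ⟨i, hi⟩ := a
      exact (mem_sdiff.1 hi).2 (e ▸ (mem_inter.1 (hR (mem_sdiff.1 hi).1)).2)
    rw [← add_sum_erase U rk hu, ← card_sdiff_add_card_inter R0 u]
    omega

/-- Lemma H -/
theorem lemH (h : Sat F) {Γ : Finset (Fin n)} (hΓ : ∀ i ∈ Γ, InN F i) (k : ℕ) :
    ∀ W ∈ F, n ≤ W.card + k → ∀ R ⊆ Γ, Disjoint R W → ∀ D ∈ F, W ⊆ D → R ⊆ D →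
      R.card ≤ (upA F Γ W).card := by
  induction k with
  | zero =>
    intro W _ hk R _ hd D _ _ _
    have : W = univ := eq_univ_of_card W (le_antisymm (card_le_univ W) (by simpa only [Fintype.card_fin, add_zero] using hk))
    rw [eq_empty_of_forall_notMem fun i hi => disjoint_left.1 hd hi (this ▸ mem_univ i)]
    simp
  | succ k ih =>
    intro W hW hk R hR hd D hD hWD hRD
    rcases R.eq_empty_or_nonempty with rfl | ⟨i0, hi0⟩
    · simp
    obtain ⟨P, hP, hPD⟩ := exists_cv hW hD hWD fun e => disjoint_left.1 hd hi0 (e ▸ hRD hi0)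
    have ihc : ∀ u, Cv F W u → ∀ R' ⊆ Γ, ∀ D' ∈ F, u ⊆ D' → R' ⊆ D' →
        (R' \ u).card ≤ (upA F Γ u).card := fun u hu R' a D' b c d =>
      ih u hu.2.1 (by have := hu.card_lt; omega) _ (sdiff_subset.trans a) sdiff_disjoint D' b c
        (sdiff_subset.trans d)
    have h1 := ihc P hP R hR D hD hPD hRD
    rcases (R ∩ P).eq_empty_or_nonempty with e | ⟨x, hx⟩
    · have h2 := card_sdiff_add_card_inter R P
      have h3 : (upA F Γ P).card ≤ (upA F Γ W).card := card_le_card fun X hX => by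
        obtain ⟨a, b, c⟩ := mem_filter.1 hX
        exact mem_filter.2 ⟨a, hP.2.2.1.trans b, c⟩
      rw [e, card_empty] at h2
      omega
    obtain ⟨hxR, hxP⟩ := mem_inter.1 hx
    have hxW : x ∉ W := disjoint_left.1 hd hxR
    have h2 := upA_sum h hW (⟨P, hP, x, hR hxR, hxP, hxW⟩ : Act F Γ W)
    have hPm : P ∈ F.filter (Cv F W) := mem_filter.2 ⟨hP.2.1, hP⟩
    rw [← add_sum_erase _ _ hPm] at h2
    have h3 := peel (fun u => (upA F Γ u).card) ((F.filter (Cv F W)).erase P) ((R ∩ P).erase x)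
      fun R' hR' hne => by
        have a1 : R' ⊆ R := hR'.trans ((erase_subset _ _).trans inter_subset_left)
        have a2 : R' ⊆ P := hR'.trans ((erase_subset _ _).trans inter_subset_right)
        have a3 : W ∪ R' ⊆ P := union_subset hP.2.2.1 a2
        have a4 : W ∪ R' ∉ F := fun hm => by
          rcases hP.2.2.2.2 _ hm subset_union_left a3 with e | e
          · obtain ⟨i, hi⟩ := hne
            exact disjoint_left.1 hd (a1 hi) (e ▸ mem_union_right _ hi)
          · rcases mem_union.1 (e ▸ hxP : x ∈ W ∪ R') with c | c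
            · exact hxW c
            · exact notMem_erase x _ (hR' c)
        obtain ⟨C, hC, D', hD', b1, b2, b3, b4, b5⟩ := up_step h hW subset_union_left
          (fun i hi hiW => hΓ i (hR (a1 ((mem_union.1 hi).resolve_left hiW)))) hP.2.1 a3 a4
        obtain ⟨u, hu, huC⟩ := exists_cv hW hC b1 b2
        have c1 : ¬ R' ⊆ u := fun e => b5 (union_subset b1 (e.trans huC))
        exact ⟨u, mem_erase.2 ⟨fun e => c1 (e ▸ a2), mem_filter.2 ⟨hu.2.1, hu⟩⟩,
          sdiff_nonempty.2 c1,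
          ihc u hu R' (a1.trans hR) D' hD' (huC.trans b3) (subset_union_right.trans b4)⟩
    have h4 := card_sdiff_add_card_inter R P
    have h5 := card_erase_add_one hx
    omega

theorem lemH' (h : Sat F) {Γ W D : Finset (Fin n)} (hΓ : ∀ i ∈ Γ, InN F i) (hW : W ∈ F)
    (hd : Disjoint Γ W) (hD : D ∈ F) (h1 : W ⊆ D) (h2 : Γ ⊆ D) : Γ.card ≤ (upA F Γ W).card :=
  lemH h hΓ n W hW (by omega) Γ (Subset.refl _) hd D hD h1 h2

/-- `W` has an edge in a direction of `N ∩ M` -/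
def Edg (F : Finset (Finset (Fin n))) (W : Finset (Fin n)) : Prop :=
  ∃ i, InN F i ∧ InM F i ∧ i ∉ W ∧ insert i W ∈ F

theorem cv_insert {W : Finset (Fin n)} {i : Fin n} (hW : W ∈ F) (hi : i ∉ W)
    (h : insert i W ∈ F) : Cv F W (insert i W) :=
  ⟨hW, h, subset_insert _ _, insert_ne_self.2 hi, fun X _ a b => by
    by_cases e : i ∈ X
    · exact Or.inr (Subset.antisymm b (insert_subset e a))
    · exact Or.inl (Subset.antisymm ((subset_insert_iff_of_notMem e).1 b) a)⟩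

theorem cv_edge (h : Sat F) {W Q : Finset (Fin n)} {i : Fin n} (hM : InM F i) (hi : i ∉ W)
    (hm : insert i W ∈ F) (hQ : Cv F W Q) : Q = insert i W := by
  obtain ⟨b, hb, hQb⟩ := exists_maxMem hQ.2.1
  exact hQ.eq_of_upper h (cv_insert hQ.1 hi hm) hb.1 hQb
    (insert_subset (hM b hb) (hQ.2.2.1.trans hQb))

theorem Edg.not_act (h : Sat F) {Γ W : Finset (Fin n)} (hΓ : ∀ i ∈ Γ, ¬ InM F i) (he : Edg F W) :
    ¬ Act F Γ W := by
  rintro ⟨Q, hQ, j, a, b, c⟩
  obtain ⟨i, -, hM, hi, hm⟩ := he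
  rw [cv_edge h hM hi hm hQ, mem_insert] at b
  exact hΓ j a ((b.resolve_right c) ▸ hM)

theorem edges_card (h : Sat F) {B0 : Finset (Fin n)} (hB : B0 ∈ F) (hd : ∀ i ∈ B0, ¬ InM F i) :
    (univ.filter fun i => InN F i ∧ InM F i).card ≤
      (F.filter fun W => B0 ⊆ W ∧ Edg F W).card := by
  have key : ∀ i, InN F i ∧ InM F i → ∃ W ∈ F, B0 ⊆ W ∧ i ∉ W ∧ insert i W ∈ F := by
    rintro i ⟨hN, hM⟩
    obtain ⟨W, hW, hmax⟩ := exists_max_image (F.filter fun W => B0 ⊆ W ∧ i ∉ W) card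
      ⟨B0, mem_filter.2 ⟨hB, Subset.refl _, fun e => hd i e hM⟩⟩
    obtain ⟨h1, h2, h3⟩ := mem_filter.1 hW
    refine ⟨W, h1, h2, h3, by_contra fun hS => ?_⟩
    obtain ⟨b, hb, hWb⟩ := exists_maxMem h1
    obtain ⟨C, hC, D, -, b1, b2, -, -, b5⟩ := up_step h h1 (subset_insert i W)
      (fun j hj hjW => ((mem_insert.1 hj).resolve_right hjW) ▸ hN) hb.1
      (insert_subset (hM b hb) hWb) hS
    exact b2 (eq_of_subset_of_card_le b1 (hmax C (mem_filter.2
      ⟨hC, h2.trans b1, fun e => b5 (insert_subset e b1)⟩))).symm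
  choose! W h1 h2 h3 h4 using key
  refine card_le_card_of_injOn W (fun i hi => ?_) fun i hi j hj e => ?_
  · have hi := (mem_filter.1 hi).2
    exact mem_filter.2 ⟨h1 i hi, h2 i hi, i, hi.1, hi.2, h3 i hi, h4 i hi⟩
  · have hi := (mem_filter.1 hi).2
    have hj := (mem_filter.1 hj).2
    have := cv_edge h hj.2 (h3 j hj) (h4 j hj) (e ▸ cv_insert (h1 i hi) (h3 i hi) (h4 i hi))
    have h5 : i ∈ insert j (W j) := this ▸ mem_insert_self _ _
    exact (mem_insert.1 h5).resolve_right (e ▸ h3 i hi)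

/-- minimal sets contained in no member -/
def Cof (F : Finset (Finset (Fin n))) (U : Finset (Fin n)) : Prop :=
  (∀ W ∈ F, ¬ U ⊆ W) ∧ ∀ j ∈ U, ∃ W ∈ F, U.erase j ⊆ W

theorem Cof.priv {U : Finset (Fin n)} (h : Cof F U) {j : Fin n} (hj : j ∈ U) :
    ∃ b, MaxMem F b ∧ U.erase j ⊆ b ∧ j ∉ b := by
  obtain ⟨W, hW, h1⟩ := h.2 j hj
  obtain ⟨b, hb, h2⟩ := exists_maxMem hW
  refine ⟨b, hb, h1.trans h2, fun e => h.1 b hb.1 ?_⟩
  rw [← insert_erase hj]
  exact insert_subset e (h1.trans h2)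

theorem card_le_max {G : Finset (Fin n)}
    (h : ∀ j ∈ G, ∃ b, MaxMem F b ∧ j ∉ b ∧ ∀ i ∈ G, i ≠ j → i ∈ b) :
    G.card ≤ (F.filter (MaxMem F)).card := by
  choose! b h1 h2 h3 using h
  refine card_le_card_of_injOn b (fun j hj => mem_filter.2 ⟨(h1 j hj).1, h1 j hj⟩)
    fun i hi j hj e => by_contra fun hne => ?_
  exact h2 i hi (e ▸ h3 j hj i hi hne)

theorem Cof.card_le {U : Finset (Fin n)} (h : Cof F U) : U.card ≤ (F.filter (MaxMem F)).card :=
  card_le_max fun _ hj => let ⟨b, a, c, d⟩ := h.priv hj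
    ⟨b, a, d, fun _ hi e => c (mem_erase.2 ⟨e, hi⟩)⟩

/-- Lemma S -/
theorem lemS (h : Sat F) {Γ : Finset (Fin n)} (hΓ : ∀ i ∈ Γ, InN F i) (G : Finset (Fin n)) :
    G ⊆ Γ → (∃ X ∈ F, G ⊆ X) → G.card ≤ (F.filter (MaxMem F)).card + 1 +
      (F.filter fun P => Act F Γ P ∧ ¬ G ⊆ P ∧ ¬ MinMem F P ∧ ¬ ∃ U, Cof F U ∧ P ⊆ U).card := by
  induction G using Finset.strongInduction with
  | H G ih =>
  rintro hG ⟨X0, hX0, hGX⟩
  rcases G.eq_empty_or_nonempty with rfl | ⟨i0, hi0⟩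
  · simp only [card_empty, empty_subset, not_true_eq_false, not_exists, not_and, false_and, and_false, filter_false, add_zero, le_add_iff_nonneg_left, zero_le]
  obtain ⟨a, ha, haX⟩ := exists_minMem hX0
  obtain ⟨P, hP, hmax⟩ := exists_max_image
    (F.filter fun P => ¬ G ⊆ P ∧ ∃ X ∈ F, P ∪ G ⊆ X) card
    ⟨a, mem_filter.2 ⟨ha.1, fun e => hΓ i0 (hG hi0) a ha (e hi0), X0, hX0, union_subset haX hGX⟩⟩
  obtain ⟨hPF, hGP, X, hX, hPX⟩ := mem_filter.1 hP
  have hup : ∀ C ∈ F, ∀ D ∈ F, P ⊆ C → C ≠ P → C ⊆ D → G ⊆ D → G ⊆ C := fun C hC D hD a b c d =>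
    by_contra fun e => b (eq_of_subset_of_card_le a
      (hmax C (mem_filter.2 ⟨hC, e, D, hD, union_subset c d⟩))).symm
  have hN : ∀ S, S ⊆ P ∪ G → ∀ i ∈ S, i ∉ P → InN F i := fun S hS i hi hiP =>
    hΓ i (hG ((mem_union.1 (hS hi)).resolve_left hiP))
  have hPG : P ∪ G ∈ F := by_contra fun hS => by
    obtain ⟨C, hC, D, hD, b1, b2, b3, b4, b5⟩ :=
      up_step h hPF subset_union_left (hN _ (Subset.refl _)) hX hPX hS
    exact b5 (union_subset b1 (hup C hC D hD b1 b2 b3 (subset_union_right.trans b4)))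
  obtain ⟨x, hxG, hxP⟩ := not_subset.1 hGP
  by_cases hc : ∃ U, Cof F U ∧ P ⊆ U
  · obtain ⟨U, hU, hPU⟩ := hc
    have h1 : ((G.erase x) ∩ U ∪ (G.erase x) \ U).card ≤ (F.filter (MaxMem F)).card := by
      have k1 : ∀ j ∈ G.erase x, ∃ b, MaxMem F b ∧ j ∉ b ∧
          ∀ i ∈ G.erase x, i ≠ j → (i ∈ U ∨ j ∉ U) → i ∈ b := fun j hj => by
        by_cases hjU : j ∈ U
        · obtain ⟨b, a, c, d⟩ := hU.priv hjU
          exact ⟨b, a, d, fun i _ e f => c (mem_erase.2 ⟨e, f.resolve_right (not_not.2 hjU)⟩)⟩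
        · obtain ⟨hjx, hjG⟩ := mem_erase.1 hj
          have hjP : j ∉ P := fun e => hjU (hPU e)
          have s1 : P ⊆ (P ∪ G).erase j := subset_erase.2 ⟨subset_union_left, hjP⟩
          have s2 : (P ∪ G).erase j ∉ F := fun hm => notMem_erase j _
            (hup _ hm _ hPG s1 (fun e => hxP (e ▸ mem_erase.2 ⟨hjx.symm, mem_union_right _ hxG⟩))
              (erase_subset _ _) subset_union_right hjG)
          obtain ⟨C, hC, D, hD, b1, b2, b3, b4, b5⟩ :=
            up_step h hPF s1 (hN _ (erase_subset _ _)) hPG (erase_subset _ _) s2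
          obtain ⟨b, hb, hDb⟩ := exists_maxMem hD
          have s3 : ∀ i ∈ G, i ≠ j → i ∈ b := fun i hi e =>
            hDb (b4 (mem_erase.2 ⟨e, mem_union_right _ hi⟩))
          refine ⟨b, hb, fun e => b5 ((erase_subset _ _).trans (union_subset b1
            (hup C hC b hb.1 b1 b2 (b3.trans hDb) fun i hi => ?_))),
            fun i hi e _ => s3 i (mem_erase.1 hi).2 e⟩
          by_cases f : i = j
          · exact f ▸ e
          · exact s3 i hi f
      choose! b k1 k2 k3 using k1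
      rw [union_comm, sdiff_union_inter]
      refine card_le_card_of_injOn b (fun j hj => mem_filter.2 ⟨(k1 j hj).1, k1 j hj⟩)
        fun i hi j hj e => by_contra fun hne => ?_
      by_cases f : i ∈ U ∨ j ∉ U
      · exact k2 i hi (e ▸ k3 j hj i hi hne f)
      · exact k2 j hj (e ▸ k3 i hi j hj (Ne.symm hne) (Or.inr fun c => f (Or.inl c)))
    rw [union_comm, sdiff_union_inter] at h1
    have := card_erase_add_one hxG
    omega
  · have h1 := lemH' h (Γ := G \ P) (fun i hi => hΓ i (hG (mem_sdiff.1 hi).1)) hPF sdiff_disjoint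
      hPG subset_union_left (sdiff_subset.trans subset_union_right)
    have h2 := card_sdiff_add_card_inter G P
    set T := F.filter fun Q => Act F Γ Q ∧ ¬ G ⊆ Q ∧ ¬ MinMem F Q ∧ ¬ ∃ U, Cof F U ∧ Q ⊆ U
    have h3 : ∀ Q ∈ upA F (G \ P) P, ¬ MinMem F Q → Q ∈ T := fun Q hQ hm => by
      obtain ⟨a, b, c⟩ := mem_filter.1 hQ
      exact mem_filter.2 ⟨a, c.mono (sdiff_subset.trans hG),
        fun e => c.not_sub (sdiff_subset.trans e), hm, fun ⟨U, d, e⟩ => hc ⟨U, d, b.trans e⟩⟩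
    rcases (G ∩ P).eq_empty_or_nonempty with e | ⟨y, hy⟩
    · have h4 : upA F (G \ P) P ⊆ insert P T := fun Q hQ => by
        by_cases f : Q = P
        · exact f ▸ mem_insert_self _ _
        · exact mem_insert_of_mem (h3 Q hQ fun hm =>
            f (hm.2 P hPF (mem_filter.1 hQ).2.1).symm)
      have h5 := (card_le_card h4).trans (card_insert_le _ _)
      rw [e, card_empty] at h2
      omega
    · have h4 := ih (G ∩ P) (ssubset_of_subset_of_ne inter_subset_left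
        fun e => hxP (mem_inter.1 (e.symm ▸ hxG : x ∈ G ∩ P)).2) (inter_subset_left.trans hG)
        ⟨P, hPF, inter_subset_right⟩
      set T' := F.filter fun Q => Act F Γ Q ∧ ¬ G ∩ P ⊆ Q ∧ ¬ MinMem F Q ∧
        ¬ ∃ U, Cof F U ∧ Q ⊆ U
      have h5 : upA F (G \ P) P ∪ T' ⊆ T := union_subset
        (fun Q hQ => h3 Q hQ fun hm => hΓ y (hG (mem_inter.1 hy).1) Q hm
          ((mem_filter.1 hQ).2.1 (mem_inter.1 hy).2))
        fun Q hQ => by
          obtain ⟨a, b, c, d⟩ := mem_filter.1 hQ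
          exact mem_filter.2 ⟨a, b, fun e => c (inter_subset_left.trans e), d⟩
      have h6 := card_le_card h5
      rw [card_union_of_disjoint (disjoint_left.2 fun Q a b =>
        (mem_filter.1 b).2.2.1 (inter_subset_right.trans (mem_filter.1 a).2.1))] at h6
      omega

end Pool.Agent.MP_99eff6_co.H9

end

-- part MP_99eff6_co.H9.Main
section

/-! The bound `3n/2 - 4` for diamond-saturated families without `∅` and `[n]`. -/

namespace Pool.Agent.MP_99eff6_co.H9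

open Finset
open scoped Classical

variable {n : ℕ} {F : Finset (Finset (Fin n))}

/-- maximal sets containing no member -/
def Fac (F : Finset (Finset (Fin n))) (T : Finset (Fin n)) : Prop :=
  (∀ W ∈ F, ¬ W ⊆ T) ∧ ∀ j ∉ T, ∃ W ∈ F, W ⊆ insert j T

theorem exists_fac {S : Finset (Fin n)} (hS : ∀ W ∈ F, ¬ W ⊆ S) : ∃ T, Fac F T ∧ S ⊆ T := by
  obtain ⟨T, hT, hmax⟩ := exists_max_image
    (univ.filter fun T : Finset (Fin n) => S ⊆ T ∧ ∀ W ∈ F, ¬ W ⊆ T) card
    ⟨S, mem_filter.2 ⟨mem_univ _, Subset.refl _, hS⟩⟩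
  obtain ⟨-, h1, h2⟩ := mem_filter.1 hT
  refine ⟨T, ⟨h2, fun j hj => by_contra fun hc => ?_⟩, h1⟩
  have := hmax (insert j T) (mem_filter.2 ⟨mem_univ _, h1.trans (subset_insert _ _),
    fun W hW e => hc ⟨W, hW, e⟩⟩)
  rw [card_insert_of_notMem hj] at this
  omega

theorem Fac.mem {T : Finset (Fin n)} (h : Fac F T) {i : Fin n} (hi : InN F i) : i ∈ T := by
  by_contra hc
  obtain ⟨W, hW, h1⟩ := h.2 i hc
  obtain ⟨a, ha, h2⟩ := exists_minMem hW
  exact h.1 a ha.1 ((subset_insert_iff_of_notMem (hi a ha)).1 (h2.trans h1))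

theorem Cof.notMem {U : Finset (Fin n)} (h : Cof F U) {i : Fin n} (hi : InM F i) : i ∉ U :=
  fun e => let ⟨b, a, _, c⟩ := h.priv e; c (hi b a)

/-- the lower family -/
def Low (F : Finset (Finset (Fin n))) (X : Finset (Fin n)) : Prop :=
  MinMem F X ∨ (¬ MaxMem F X ∧ ∃ T, Fac F T ∧ T ⊆ X)

/-- the upper family -/
def Upp (F : Finset (Finset (Fin n))) (X : Finset (Fin n)) : Prop :=
  MaxMem F X ∨ (¬ MinMem F X ∧ ∃ U, Cof F U ∧ X ⊆ U)

theorem weight_aux (h : Sat F) (w : Fin n → ℚ) (hw0 : ∀ X ∈ F, Low F X → ∑ i ∈ X, w i = 0)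
    (hσ : 0 ≤ ∑ i, w i) (a0 : Finset (Fin n)) (ha0 : MinMem F a0) (i0 : Fin n) (hi0 : i0 ∈ a0) :
    w i0 = 0 := by
  by_contra hw
  set S : Finset (Fin n) := univ.filter (fun i => 0 < w i ∨ (i ∈ a0 ∧ w i = 0)) with hSdef
  have hmemS : ∀ i, i ∈ S ↔ 0 < w i ∨ (i ∈ a0 ∧ w i = 0) := by
    intro i; simp only [hSdef, mem_filter, mem_univ, true_and]
  have hS : ∀ W ∈ F, ¬ W ⊆ S := by
    intro W hW hWS
    obtain ⟨a, ha, haW⟩ := exists_minMem hW
    have hz := (sum_eq_zero_iff_of_nonneg fun i hi =>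
      ((hmemS i).1 (hWS (haW hi))).elim le_of_lt fun h1 => h1.2.ge).1 (hw0 a ha.1 (Or.inl ha))
    have := ha0.2 a ha.1 fun i hi =>
      ((hmemS i).1 (hWS (haW hi))).elim (fun h1 => absurd (hz i hi) h1.ne') fun h1 => h1.1
    exact hw (hz i0 (this ▸ hi0))
  obtain ⟨T, hT, hST⟩ := exists_fac hS
  obtain ⟨X, Y, Z, hX, hY, hZ, hSX, hSY, hXZ, hYZ, hXY, hYX⟩ := h.bot_of_empty_below hT.1
  have key : ∀ X : Finset (Fin n), S ⊆ X → ∑ i ∈ X, w i = 0 → a0 ⊆ X := by
    intro X hSX hX0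
    have hsplit : ∑ i ∈ X, w i + ∑ i ∈ Xᶜ, w i = ∑ i, w i := sum_add_sum_compl X w
    have hnp : ∀ i ∈ Xᶜ, w i ≤ 0 := fun i hi => by
      by_contra hpos
      exact (mem_compl.1 hi) (hSX ((hmemS i).2 (Or.inl (not_le.1 hpos))))
    have hle : ∑ i ∈ Xᶜ, w i ≤ 0 := sum_nonpos hnp
    have hz := (sum_eq_zero_iff_of_nonpos hnp).1 (by linarith only [hσ, hX0, hsplit, hle])
    intro i hi
    by_contra hiX
    exact hiX (hSX ((hmemS i).2 (Or.inr ⟨hi, hz i (mem_compl.2 hiX)⟩)))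
  exact h.free ⟨a0, X, Y, Z, ha0.1, hX, hY, hZ,
    key X (hST.trans hSX) (hw0 X hX (Or.inr ⟨fun e => hYX (e.2 Z hZ hXZ ▸ hYZ), T, hT, hSX⟩)),
    key Y (hST.trans hSY) (hw0 Y hY (Or.inr ⟨fun e => hXY (e.2 Z hZ hYZ ▸ hXZ), T, hT, hSY⟩)),
    hXZ, hYZ, hXY, hYX⟩

theorem low_card (h : Sat F) :
    n ≤ (F.filter (Low F)).card + (univ.filter (InN F)).card := by
  let L : (Fin n → ℚ) →ₗ[ℚ] (F.filter (Low F) → ℚ) × (univ.filter (InN F) → ℚ) :=
    { toFun := fun w => (fun X => ∑ i ∈ (X : Finset (Fin n)), w i, fun i => w i)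
      map_add' := fun w w' => by ext <;> simp [sum_add_distrib]
      map_smul' := fun c w => by ext <;> simp [mul_sum] }
  have hinj : Function.Injective L := by
    rw [← LinearMap.ker_eq_bot, LinearMap.ker_eq_bot']
    intro w hw
    have h1 : ∀ X ∈ F, Low F X → ∑ i ∈ X, w i = 0 := fun X a b =>
      congrFun (congrArg Prod.fst hw) ⟨X, mem_filter.2 ⟨a, b⟩⟩
    funext i
    by_cases hi : InN F i
    · exact congrFun (congrArg Prod.snd hw) ⟨i, mem_filter.2 ⟨mem_univ _, hi⟩⟩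
    · simp only [InN, not_forall, not_not] at hi
      obtain ⟨a, ha, hia⟩ := hi
      rcases le_total 0 (∑ i, w i) with hσ | hσ
      · exact weight_aux h w h1 hσ a ha i hia
      · have := weight_aux h (fun i => - w i)
          (fun X a b => by rw [sum_neg_distrib, h1 X a b, neg_zero])
          (by rw [sum_neg_distrib]; linarith) a ha i hia
        simpa using this
  simpa only [Module.finrank_prod, Module.finrank_fintype_fun_eq_card, Fintype.card_fin,
    Fintype.card_coe] using LinearMap.finrank_le_finrank_of_injective hinj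

/-! ### complements -/

/-- the family of complements -/
def co (F : Finset (Finset (Fin n))) : Finset (Finset (Fin n)) := F.image (·ᶜ)

theorem mem_co {X : Finset (Fin n)} : X ∈ co F ↔ Xᶜ ∈ F :=
  ⟨fun hX => by obtain ⟨Y, hY, rfl⟩ := mem_image.1 hX; rwa [compl_compl],
    fun hX => mem_image.2 ⟨Xᶜ, hX, compl_compl X⟩⟩

theorem csc {X Y : Finset (Fin n)} : Xᶜ ⊆ Y ↔ Yᶜ ⊆ X := by
  rw [← compl_subset_compl, compl_compl]

theorem two_le {s t u : Finset (Finset (Fin n))} (hs : s ⊆ u) (ht : t ⊆ u)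
    (hd : ∀ x ∈ s, x ∉ t) : s.card + t.card ≤ u.card := by
  rw [← card_union_of_disjoint (disjoint_left.2 hd)]
  exact card_le_card (union_subset hs ht)

theorem forall_co {p : Finset (Fin n) → Prop} : (∀ X ∈ co F, p X) ↔ ∀ X ∈ F, p Xᶜ :=
  forall_mem_image

theorem min_co {X : Finset (Fin n)} : MinMem (co F) X ↔ MaxMem F Xᶜ :=
  and_congr mem_co (forall_co.trans (forall₂_congr fun _ _ =>
    imp_congr csc (compl_eq_comm.trans eq_comm)))

theorem max_co {X : Finset (Fin n)} : MaxMem (co F) X ↔ MinMem F Xᶜ :=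
  and_congr mem_co (forall_co.trans (forall₂_congr fun _ _ =>
    imp_congr subset_compl_comm (compl_eq_comm.trans eq_comm)))

theorem inN_co {i : Fin n} : InN (co F) i ↔ InM F i :=
  ⟨fun h b hb => by_contra fun e => h bᶜ (min_co.2 (by rwa [compl_compl])) (mem_compl.2 e),
    fun h a ha => mem_compl.1 (h _ (min_co.1 ha))⟩

theorem inM_co {i : Fin n} : InM (co F) i ↔ InN F i :=
  ⟨fun h a ha => mem_compl.1 (h aᶜ (max_co.2 (by rwa [compl_compl]))),
    fun h b hb => by_contra fun e => h _ (max_co.1 hb) (mem_compl.2 e)⟩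

theorem fac_co {T : Finset (Fin n)} : Fac (co F) T ↔ Cof F Tᶜ := by
  refine and_congr (forall_co.trans (forall₂_congr fun _ _ => not_congr csc))
    (forall_congr' fun j => imp_congr mem_compl.symm ⟨?_, ?_⟩)
  · rintro ⟨W, hW, e⟩
    exact ⟨Wᶜ, mem_co.1 hW, by rw [← compl_insert]; exact compl_subset_compl.2 e⟩
  · rintro ⟨W, hW, e⟩
    exact ⟨Wᶜ, mem_co.2 (by rwa [compl_compl]), csc.1 (by rwa [compl_insert])⟩

theorem card_filter_co (p q : Finset (Fin n) → Prop) (h : ∀ X, p X ↔ q Xᶜ) :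
    ((co F).filter p).card = (F.filter q).card := by
  rw [co, filter_image, card_image_of_injective _ compl_injective]
  exact congrArg card (filter_congr fun X _ => by rw [h, compl_compl])

theorem card_co : (co F).card = F.card := card_image_of_injective _ compl_injective

theorem N_co : univ.filter (InN (co F)) = univ.filter (InM F) := filter_congr fun _ _ => inN_co

theorem M_co : univ.filter (InM (co F)) = univ.filter (InN F) := filter_congr fun _ _ => inM_co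

theorem upp_card (h : Sat F) :
    n ≤ (F.filter (Upp F)).card + (univ.filter (InM F)).card := by
  have := low_card (F := co F) h.compl
  rwa [card_filter_co (Low (co F)) (Upp F) fun X => or_congr min_co (and_congr (not_congr max_co)
    ⟨fun ⟨T, a, b⟩ => ⟨Tᶜ, fac_co.1 a, compl_subset_compl.2 b⟩,
      fun ⟨U, a, b⟩ => ⟨Uᶜ, fac_co.2 (by rwa [compl_compl]), csc.1 b⟩⟩), N_co] at this

theorem Fac.card_ge {T : Finset (Fin n)} (h : Fac F T) :
    n ≤ (F.filter (MinMem F)).card + T.card := by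
  have h1 : Cof (co F) Tᶜ := by
    refine ⟨forall_co.2 fun W hW e => h.1 W hW (compl_subset_compl.1 e), fun j hj => ?_⟩
    obtain ⟨W, hW, e⟩ := h.2 j (mem_compl.1 hj)
    exact ⟨Wᶜ, mem_co.2 (by rwa [compl_compl]), by
      rw [← compl_insert]; exact compl_subset_compl.2 e⟩
  have h2 := h1.card_le
  rw [card_filter_co _ (MinMem F) fun _ => max_co, card_compl, Fintype.card_fin] at h2
  omega

/-! ### the cases -/

theorem case_iso (h : Sat F) {I : Finset (Fin n)} (h1 : MinMem F I) (h2 : MaxMem F I) :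
    3 * I.card ≤ F.card := by
  have key : ∀ j ∈ I, 3 ≤ (F.filter fun X => X ∩ I = I.erase j).card := fun j hj => by
    obtain ⟨X, Y, Z, hX, hY, hZ, a, b, c, d, e, f⟩ := h.bot_of_empty_below (S := I.erase j)
      fun W hW hs => notMem_erase j I (hs ((h1.2 W hW (hs.trans (erase_subset _ _))).symm ▸ hj))
    have hjZ : j ∉ Z := fun g => by
      have hI : I ⊆ Z := insert_erase hj ▸ insert_subset g (a.trans c)
      have := h2.2 Z hZ hI
      exact e (h1.2 X hX (this ▸ c) ▸ h1.2 Y hY (this ▸ d) ▸ Subset.refl _)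
    have m : ∀ W ∈ F, I.erase j ⊆ W → W ⊆ Z → W ∈ F.filter fun X => X ∩ I = I.erase j :=
      fun W hW s t => mem_filter.2 ⟨hW, Subset.antisymm
        (fun i hi => mem_erase.2 ⟨fun g => hjZ (t (g ▸ (mem_inter.1 hi).1)), (mem_inter.1 hi).2⟩)
        (subset_inter s (erase_subset _ _))⟩
    exact two_lt_card_iff.2 ⟨X, Y, Z, m X hX a c, m Y hY b d, m Z hZ (a.trans c) (Subset.refl _),
      fun g => e (g ▸ Subset.refl _), fun g => f (g ▸ d), fun g => e (g ▸ c)⟩
  calc 3 * I.card = ∑ _j ∈ I, 3 := by simp [mul_comm]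
    _ ≤ ∑ j ∈ I, (F.filter fun X => X ∩ I = I.erase j).card := sum_le_sum key
    _ = (I.biUnion fun j => F.filter fun X => X ∩ I = I.erase j).card :=
      (card_biUnion fun i hi j _ hij => disjoint_left.2 fun X a b => hij
        (erase_injOn I hi (by assumption) ((mem_filter.1 a).2.symm.trans (mem_filter.1 b).2))).symm
    _ ≤ F.card := card_le_card (biUnion_subset.2 fun _ _ => filter_subset _ _)

theorem exists_complete (h : Sat F) {S : Finset (Fin n)} (hS : ∀ W ∈ F, ¬ W ⊆ S) :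
    ∃ X ∈ F, S ⊆ X ∧ ∀ i, InN F i → i ∈ X := by
  obtain ⟨T, hT, h1⟩ := exists_fac hS
  obtain ⟨X, -, -, hX, -, -, a, -⟩ := h.bot_of_empty_below hT.1
  exact ⟨X, hX, h1.trans a, fun i hi => a (hT.mem hi)⟩

theorem act_not_low {Γ P : Finset (Fin n)} (hΓ : ∀ i ∈ Γ, InN F i) (ha : Act F Γ P)
    (hm : ¬ MinMem F P) : ¬ Low F P := fun e => e.elim hm fun ⟨_, _, a, b⟩ =>
  ha.not_sub fun i hi => b (a.mem (hΓ i hi))

theorem upA_erase (h : Sat F) {Γ a D : Finset (Fin n)} (hΓ : ∀ i ∈ Γ, InN F i) (ha : MinMem F a)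
    (hD : D ∈ F) (h1 : a ⊆ D) (h2 : Γ ⊆ D) :
    Γ.card ≤ (F.filter fun P => a ⊆ P ∧ Act F Γ P ∧ ¬ MinMem F P).card + 1 := by
  refine (lemH' h hΓ ha.1 (disjoint_left.2 fun i hi => hΓ i hi a ha) hD h1 h2).trans
    ((card_le_card fun P hP => ?_).trans (card_insert_le a _))
  obtain ⟨x, y, z⟩ := mem_filter.1 hP
  by_cases e : P = a
  · exact e ▸ mem_insert_self _ _
  · exact mem_insert_of_mem (mem_filter.2 ⟨x, y, z, fun hm => e (hm.2 a ha.1 y).symm⟩)

theorem case_max (h : Sat F) (h0 : ∅ ∉ F) (hi : ∀ I, MinMem F I → ¬ MaxMem F I) :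
    n + (F.filter (MaxMem F)).card ≤ F.card + 1 := by
  obtain ⟨X, hX, -, hN⟩ := exists_complete h (S := ∅) fun W hW e => h0 (subset_empty.1 e ▸ hW)
  obtain ⟨a, ha, haX⟩ := exists_minMem hX
  have hΓ : ∀ i ∈ univ.filter (InN F), InN F i := fun i hi => (mem_filter.1 hi).2
  have h1 := upA_erase h hΓ ha hX haX fun i hi => hN i (hΓ i hi)
  have h2 := low_card h
  have h3 := card_filter_add_card_filter_not (s := F) (MaxMem F)
  have h4 : (F.filter (Low F)).card + (F.filter fun P => a ⊆ P ∧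
      Act F (univ.filter (InN F)) P ∧ ¬ MinMem F P).card ≤
      (F.filter fun P => ¬ MaxMem F P).card :=
    two_le (monotone_filter_right _ fun P _ e => e.elim (hi P) fun e => e.1)
      (monotone_filter_right _ fun P _ e => e.2.1.not_max) fun P x y =>
      act_not_low hΓ (mem_filter.1 y).2.2.1 (mem_filter.1 y).2.2.2 (mem_filter.1 x).2
  omega

/-- members outside both families -/
def Good (F : Finset (Finset (Fin n))) (X : Finset (Fin n)) : Prop := ¬ Low F X ∧ ¬ Upp F X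

theorem edges_good (h : Sat F) (h1 : univ ∉ F) :
    2 * (univ.filter fun i => InN F i ∧ InM F i).card ≤
      (F.filter fun W => Good F W ∧ Edg F W).card + 2 := by
  have hS : ∀ W ∈ F, ¬ univ.filter (fun i => ¬ InM F i) ⊆ W := fun W hW e => by
    obtain ⟨b, hb, c⟩ := exists_maxMem hW
    refine h1 ((eq_univ_of_forall fun i => ?_ : b = univ) ▸ hb.1)
    by_cases f : InM F i
    · exact f b hb
    · exact c (e (mem_filter.2 ⟨mem_univ _, f⟩))
  have grow : ∀ B ∈ F, (∀ i ∈ B, ¬ InM F i) → ∃ B' ∈ F, B ⊆ B' ∧ (∀ i ∈ B', ¬ InM F i) ∧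
      ∀ W ∈ F, B' ⊆ W → (∀ i ∈ W, ¬ InM F i) → W = B' := fun B hB hd => by
    obtain ⟨B', hB', hmax⟩ := exists_max_image (F.filter fun W => B ⊆ W ∧ ∀ i ∈ W, ¬ InM F i) card
      ⟨B, mem_filter.2 ⟨hB, Subset.refl _, hd⟩⟩
    obtain ⟨a, b, c⟩ := mem_filter.1 hB'
    exact ⟨B', a, b, c, fun W x y z =>
      (eq_of_subset_of_card_le y (hmax W (mem_filter.2 ⟨x, b.trans y, z⟩))).symm⟩
  have side : ∀ B ∈ F, (∀ i ∈ B, ¬ InM F i) →
      (∀ W ∈ F, B ⊆ W → (∀ i ∈ W, ¬ InM F i) → W = B) →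
      (univ.filter fun i => InN F i ∧ InM F i).card ≤
        (F.filter fun W => B ⊆ W ∧ Good F W ∧ Edg F W).card + 1 := fun B hB hd hmax => by
    refine (edges_card h hB hd).trans ((card_le_card fun W hW => ?_).trans (card_insert_le B _))
    obtain ⟨x, y, z⟩ := mem_filter.1 hW
    by_cases e : W = B
    · exact e ▸ mem_insert_self _ _
    refine mem_insert_of_mem (mem_filter.2 ⟨x, y, ⟨?_, ?_⟩, z⟩)
    · obtain ⟨i, a, -, b, -⟩ := z
      exact fun f => f.elim (fun f => e (f.2 B hB y).symm) fun ⟨_, _, c, d⟩ => b (d (c.mem a))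
    · obtain ⟨i, -, a, b, -⟩ := z
      exact fun f => f.elim (fun f => b (a W f)) fun ⟨_, _, c, d⟩ =>
        e (hmax W x y fun j hj g => c.notMem g (d hj))
  rcases h.sat _ (fun e => hS _ e (Subset.refl _)) with ⟨B, -, -, hB, -, -, a, -⟩ |
    ⟨A, B, C, hA, hB, hC, hAB, hAC, hBS, hCS, hBC, hCB⟩ | ⟨-, -, D, -, -, hD, -, -, a, -⟩
  · exact absurd a (hS B hB)
  · obtain ⟨B', b1, b2, b3, b4⟩ := grow B hB fun i hi => (mem_filter.1 (hBS hi)).2
    obtain ⟨C', c1, c2, c3, c4⟩ := grow C hC fun i hi => (mem_filter.1 (hCS hi)).2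
    have s1 := side B' b1 b3 b4
    have s2 := side C' c1 c3 c4
    have h4 := card_le_card (show (F.filter fun W => B' ⊆ W ∧ Good F W ∧ Edg F W) ∪
        (F.filter fun W => C' ⊆ W ∧ Good F W ∧ Edg F W) ⊆ F.filter fun W => Good F W ∧ Edg F W from
      union_subset (monotone_filter_right _ fun _ _ e => e.2)
        (monotone_filter_right _ fun _ _ e => e.2))
    rw [card_union_of_disjoint (disjoint_left.2 fun W x y => h.free ⟨A, B, C, W, hA, hB, hC,
      (mem_filter.1 x).1, hAB, hAC, b2.trans (mem_filter.1 x).2.1, c2.trans (mem_filter.1 y).2.1,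
      hBC, hCB⟩)] at h4
    omega
  · exact absurd a (hS D hD)

theorem case_small (h : Sat F) (h0 : ∅ ∉ F) (h1 : univ ∉ F)
    (hi : ∀ I, MinMem F I → ¬ MaxMem F I) (ha : 2 * (F.filter (MinMem F)).card < n)
    (hb : 2 * (F.filter (MaxMem F)).card < n)
    (hNM : (univ.filter (InM F)).card ≤ (univ.filter (InN F)).card) : 3 * n ≤ 2 * F.card + 6 := by
  set Γ := univ.filter fun i => InN F i ∧ ¬ InM F i
  have hΓ : ∀ i ∈ Γ, InN F i := fun i hi => (mem_filter.1 hi).2.1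
  have e1 := low_card h
  have e2 := upp_card h
  have e3 := edges_good h h1
  have e4 : (univ.filter fun i => InN F i ∧ InM F i).card + Γ.card =
      (univ.filter (InN F)).card := by
    rw [← card_filter_add_card_filter_not (s := univ.filter (InN F)) (InM F), filter_filter,
      filter_filter]
  have e5 : (univ.filter fun i => InN F i ∧ InM F i).card +
      (univ.filter fun i => InM F i ∧ ¬ InN F i).card = (univ.filter (InM F)).card := by
    rw [← card_filter_add_card_filter_not (s := univ.filter (InM F)) (InN F), filter_filter,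
      filter_filter, filter_congr fun i _ => and_comm]
  have e6 : (univ.filter (InN F)).card + (univ.filter fun i => InM F i ∧ ¬ InN F i).card ≤ n := by
    have := card_filter_add_card_filter_not (s := (univ : Finset (Fin n))) (InN F)
    have := card_le_card (monotone_filter_right (univ : Finset (Fin n))
      (p := fun i => InM F i ∧ ¬ InN F i) (q := fun i => ¬ InN F i) fun _ _ e => e.2)
    simp only [card_univ, Fintype.card_fin] at *
    omega
  have e7 : (F.filter (Low F)).card + (F.filter (Upp F)).card + (F.filter (Good F)).card ≤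
      F.card := by
    rw [← card_union_of_disjoint, ← card_union_of_disjoint]
    · exact card_le_card (union_subset (union_subset (filter_subset _ _) (filter_subset _ _))
        (filter_subset _ _))
    · exact disjoint_left.2 fun X x y => (mem_union.1 x).elim
        (fun x => (mem_filter.1 y).2.1 (mem_filter.1 x).2)
        fun x => (mem_filter.1 y).2.2 (mem_filter.1 x).2
    · refine disjoint_left.2 fun X x y => ?_
      rcases (mem_filter.1 x).2 with a | ⟨a, T, hT, b⟩ <;>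
        rcases (mem_filter.1 y).2 with c | ⟨c, U, hU, d⟩
      · exact hi X a c
      · exact c a
      · exact a c
      · have := hT.card_ge
        have := hU.card_le
        have := card_le_card (b.trans d)
        omega
  have e8 : (F.filter fun W => Good F W ∧ Edg F W).card +
      (F.filter fun W => Good F W ∧ Act F Γ W).card ≤ (F.filter (Good F)).card := by
    rw [← card_union_of_disjoint (disjoint_left.2 fun W x y => (mem_filter.1 x).2.2.not_act h
      (fun i hi => (mem_filter.1 hi).2.2) (mem_filter.1 y).2.2)]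
    exact card_le_card (union_subset (monotone_filter_right _ fun _ _ e => e.1)
      (monotone_filter_right _ fun _ _ e => e.1))
  rcases (univ.filter fun i => InM F i ∧ ¬ InN F i).eq_empty_or_nonempty with e | ⟨j, hj⟩
  · obtain ⟨X, hX, -, hN⟩ := exists_complete h (S := ∅) fun W hW e => h0 (subset_empty.1 e ▸ hW)
    have f1 := lemS h hΓ Γ (Subset.refl _) ⟨X, hX, fun i hi => hN i (hΓ i hi)⟩
    have f2 := card_le_card (monotone_filter_right F (p := fun P => Act F Γ P ∧ ¬ Γ ⊆ P ∧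
      ¬ MinMem F P ∧ ¬ ∃ U, Cof F U ∧ P ⊆ U) (q := fun W => Good F W ∧ Act F Γ W) fun P _ x =>
      ⟨⟨act_not_low hΓ x.1 x.2.2.1, fun f => f.elim x.1.not_max fun f => x.2.2.2 f.2⟩, x.1⟩)
    rw [e, card_empty] at e5
    omega
  · obtain ⟨-, hM, hN⟩ := mem_filter.1 hj
    simp only [InN, not_forall, not_not] at hN
    obtain ⟨a, ham, hja⟩ := hN
    obtain ⟨X, hX, x1, x2⟩ := exists_complete h (S := a.erase j) fun W hW hs =>
      notMem_erase j a (hs ((ham.2 W hW (hs.trans (erase_subset _ _))).symm ▸ hja))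
    obtain ⟨b, hbm, hXb⟩ := exists_maxMem hX
    have f1 := upA_erase h hΓ ham hbm.1
      (insert_erase hja ▸ insert_subset (hM b hbm) (x1.trans hXb)) fun i hi => hXb (x2 i (hΓ i hi))
    have f2 := card_le_card (monotone_filter_right F (p := fun P => a ⊆ P ∧ Act F Γ P ∧
      ¬ MinMem F P) (q := fun W => Good F W ∧ Act F Γ W) fun P _ x =>
      ⟨⟨act_not_low hΓ x.2.1 x.2.2, fun f => f.elim x.2.1.not_max fun ⟨_, _, c, d⟩ =>
        c.notMem hM (d (x.1 hja))⟩, x.2.1⟩)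
    omega

theorem bound (h : Sat F) (h0 : ∅ ∉ F) (h1 : univ ∉ F) : 3 * n ≤ 2 * F.card + 6 := by
  have g0 : ∅ ∉ co F := fun e => h1 (compl_empty (α := Fin n) ▸ mem_co.1 e)
  have g1 : univ ∉ co F := fun e => h0 (compl_univ (α := Fin n) ▸ mem_co.1 e)
  have g : Sat (co F) := h.compl
  by_cases hi : ∀ I, MinMem F I → ¬ MaxMem F I
  · have gi : ∀ I, MinMem (co F) I → ¬ MaxMem (co F) I := fun I a b =>
      hi _ (max_co.1 b) (min_co.1 a)
    have a1 := case_max h h0 hi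
    have a2 := case_max g g0 gi
    have a3 := case_small h h0 h1 hi
    have a4 := case_small g g0 g1 gi
    rw [card_filter_co _ (MinMem F) fun _ => max_co, card_co] at a2 a4
    rw [card_filter_co _ (MaxMem F) fun _ => min_co, N_co, M_co] at a4
    omega
  · simp only [not_forall, not_not] at hi
    obtain ⟨I, a, b⟩ := hi
    have a1 := case_iso h a b
    have a2 := case_iso g (I := Iᶜ) (min_co.2 (by rwa [compl_compl]))
      (max_co.2 (by rwa [compl_compl]))
    rw [card_co, card_compl, Fintype.card_fin] at a2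
    omega

end Pool.Agent.MP_99eff6_co.H9

end
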